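import Pool.Agent.W574.MO.Cone

set_option autoImplicit false

/-! # The strong monodromy conjecture for the hypersurfaces `∑ y_j f_j(x₀, x₁, x₂) = 0`

Here the `f_j` are forms of the same degree `d` in the three variables `x₀, x₁, x₂`, and the `y_j`
are further variables: `F = univ f = ∑ y_j f_j(x₀, x₁, x₂)`. The motivic zeta functions of `F` (the
orders of `F` along all arcs, or along the arcs with origin `0`) are computed from the ideal sheaf
which the `f_j` define on the projective plane, by blowing up points; see `ConeFormMot` below,
`ConeLocalFormMot`, `ProjMot` (in `Pool.Agent.W574.MO.FormDefs`), `PlaneMot` and `MotLocal` (in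
`Pool.Agent.W574.MO.Defs`).

The proof is in the starting library `Pool.Agent.W574`:

* `algebraic_of_local` and `global_of_local`: as `F` is homogeneous, a functional equation of `F`
  with formal power series coefficients gives one with polynomial coefficients, with the same `b`;
* `functionalEq_of_univ`: a functional equation of `F` gives a functional equation of the ideal
  `(f_j)` with the same `b` (one direction of a theorem of Mustata, 2019);
* `functionalEq_deh`: a functional equation of an ideal generated by forms of the same degree gives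
  one of the dehomogenized ideal, with the same `b`;
* `local_mainM`: if `b(s₀) ≠ 0`, then the contribution of a point of the plane lies in the ring of
  the series whose denominators do not vanish at `s₀`;
* `descent`: over the unique factorization domain `ℤ[L, L⁻¹]`, all denominators which do not
  belong to roots of `b` can be removed at the same time; every contribution of a point comes from
  this ring;
* `curve_root`, `generic_root` and `minus_one`: `b(-1/m) = 0` for the multiplicities `m` of the
  curves in the zero locus, `b(-3/d) = 0` if three of the forms are algebraically independent, and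
  `b(-1) = 0`. -/

namespace Pool.Agent.Results.MP_b07157_ag.ConeForms

open MvPolynomial Pool.Agent.W574.MO Pool.Agent.W574.HS Pool.Agent.W574.SM Pool.Agent.H628R4.TP

/-- `Z` is (of the form of) the motivic zeta function `∫ T^(ord F) dμ` of the polynomial
`F = ∑ y_j f_j(x₀, x₁, x₂)`, where the `f_j` are forms of degree `d`:
`Z = Z_I (1 - L⁻¹) / (1 - L⁻¹ T)`, where `Z_I = ∫ T^(ord I) dμ` is the motivic zeta function
of the ideal `I = (f_j)` of `ℂ[x₀, x₁, x₂]`, and `Z_I = L⁻³ (L - 1) Z_J / (1 - L⁻³ T^d)`, see
`ProjMot` for `Z_J`, and `ConeJetMot` for an explanation of the last formula. -/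
def ConeFormMot {M : Type} [CommRing M] {ι : Type} (L : Mˣ) (f : ι → MvPolynomial (Fin 3) ℂ)
    (d : ℕ) (Z : PowerSeries M) : Prop :=
  ∃ Z' : PowerSeries M, ProjMot L f Z' ∧
    Z = PowerSeries.C (((L⁻¹ ^ 3 : Mˣ) : M) * ((L : M) - 1) * (1 - ((L⁻¹ : Mˣ) : M))) * Z' *
      geo L d 3 * geo L 1 1

theorem cone_form_mot {M : Type} [CommRing M] (L : Mˣ) {ι : Type} [Fintype ι] [DecidableEq ι]
    (f : ι → MvPolynomial (Fin 3) ℂ) (d : ℕ) (hd : 0 < d)
    (hf : ∀ j, (f j).IsHomogeneous d) (hf0 : ∃ j, f j ≠ 0) (b : Polynomial ℂ)
    (hb : IsBFunction (univ f) b)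
    (Z : PowerSeries M) (hZ : ConeFormMot L f d Z) : Z ∈ DenRing L (ConePair f d b) := by
  obtain ⟨Z', hZ', rfl⟩ := hZ
  have hb' := functionalEq_of_univ f b hb
  exact Subring.mul_mem _ (Subring.mul_mem _ (Subring.mul_mem _ (C_mem _)
    (proj_mot L f d hf b hb' Z' hZ'))
    (geo_mem hd (by norm_num) (pair_d3 f d hd hf b hb')))
    (geo_mem le_rfl le_rfl (pair_11 f d hf0 b hb))

/-- **The strong motivic monodromy conjecture for `F = ∑ y_j f_j(x₀, x₁, x₂)`.** Let `f_j` be forms
of the same degree `d > 0` in three variables, not all zero.

(1) Global (Q1): let `b` satisfy a functional equation `b(s) F ^ s = P(s) F ^ (s + 1)`, `P(s)` in the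
Weyl algebra with `s` adjoined (in particular `b = b_F`), and let `Z ∈ M⟦T⟧` be the motivic zeta
function of `F`. Then `Z` lies in the ring `M[T][(1 - L⁻ⁿ Tᵃ)⁻¹]`, where the pairs `a, n ≥ 1` are such
that `-n/a` is a root of `b` or, only in the case where the Jacobian determinants of all triples of
the `f_j` vanish, `-n/a = -3/d` (`ConePair`).

(2) Local (Q2): the same for the local motivic zeta function of `F` at the origin, with a functional
equation with formal power series coefficients (in particular `b = b_{F,0}`).

(3) If three of the `f_j` have a nonzero Jacobian determinant (are algebraically independent), only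
the pairs for which `-n/a` is a root of `b` are needed in (1) and (2) (`RootPair`). -/
theorem result {M : Type} [CommRing M] (L : Mˣ) {ι : Type} [Fintype ι]
    (f : ι → MvPolynomial (Fin 3) ℂ) (d : ℕ) (hd : 0 < d) (hf : ∀ j, (f j).IsHomogeneous d)
    (hf0 : ∃ j, f j ≠ 0) (b : Polynomial ℂ) (Z : PowerSeries M)
    (h : (IsBFunction (univ f) b ∧ ConeFormMot L f d Z) ∨
      (IsLocalBFunction (univ f) b ∧ ConeLocalFormMot L f d Z)) :
    Z ∈ DenRing L (ConePair f d b) ∧
      ((∃ e : Fin 3 → ι, (Matrix.of fun s t => pderiv s (f (e t))).det ≠ 0) →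
        Z ∈ DenRing L (RootPair b)) := by
  classical
  have h1 : Z ∈ DenRing L (ConePair f d b) := by
    rcases h with ⟨hb, hZ⟩ | ⟨hb, hZ⟩
    · exact cone_form_mot L f d hd hf hf0 b hb Z hZ
    · exact cone_local_form_mot L f d hd hf hf0 b (bfun_of_local f d hf hf0 b hb) Z hZ
  refine ⟨h1, fun ⟨e, he⟩ => DenRing_mono L (fun a n h => ?_) h1⟩
  rcases h with h | ⟨_, h⟩
  · exact h
  · exact absurd (h e) he

end Pool.Agent.Results.MP_b07157_ag.ConeForms
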