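import Pool.Agent.TH192.MU.Uni

set_option autoImplicit false

/-! # The strong monodromy conjecture for the motivic zeta functions of determinantal forms

Let `x` be the generic matrix of one of the three spaces `S` of matrices: all `m × n` matrices, the
symmetric `n × n` matrices, the skew symmetric `n × n` matrices (`MSpace`). Its minors of size `k`
(Pfaffians of size `2 k` in the skew symmetric case) are considered for `k < min (m, n)`, `k < n`,
or `2 k + 1 < n` (`Small`). Two families of polynomials, with non-isolated singularities and in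
arbitrarily many variables:

* `f = ∏ t, F_t ^ a t`, `a t > 0`, where `F_t = ∑_j y_{t,j} M_{t,j}(x)`, the `M_{t,j}` are the minors
  (Pfaffians) of size `p t` (`2 (p t)`), and the `y_{t,j}` are further variables, separate for each
  `t` (`detForm`);
* `F = ∑_j y_j M_j(x)`, where the `M_j` are the products of one minor (Pfaffian) of size `p t` for
  each `t`, and the `y_j` are further variables (`detUniv`).

The motivic zeta functions are defined with jets, `∑_l [𝒳_l] 𝕃 ^ (-n l) T ^ l`, `𝒳_l` the set of the
`l`-jets `φ` with `φ(0) ∈ W` and `ord_t f(φ) = l`, in the Grothendieck ring of complex varieties,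
localised at `𝕃` (`zetaM f W {c | c ≠ 0}`). By a theorem of Denef and Loeser this is `𝕃 ^ n` times the
zeta function of the problem, global for the whole space `W = univ`, local for `W = {0}` (there,
only the invertible factor `𝕃 ^ n` and, for `W = {0}`, the jets with `l = 0` differ, which do not
occur as `f(0) = 0`). A pole is defined as in the problem (`IsPole`).

Everything comes from the starting library `Pool.Agent.TH192`: the zeta functions are computed
without resolutions (orders of the ideals of minors along jets, Schur complements), with the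
denominators `1 - 𝕃 ^ (-ν_d) T ^ (N_d)`, `ν_d` the codimension of the matrices of rank `≤ d` (`≤ 2 d`),
`N_d = ∑ t, a t max (p t - d, 0)`, and `1 - 𝕃 ^ (-1) T ^ (a t)`; and the numbers `-ν_d / N_d` and
`-1 / a t` are roots of the global and of the local Bernstein-Sato polynomials, since the exceptional
divisors over the rank loci are Rees divisors of the products of the ideals of minors. -/

namespace Pool.Agent.Results.MP_b07157_ag.DeterminantalForms

open MvPolynomial Pool.Agent.H628R4.TP Pool.Agent.TH192.DT Pool.Agent.TH192.MT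
  Pool.Agent.TH192.MU Pool.Agent.W428.MOT

/-- `s₀` is a pole of `Z`: `Z` does not belong to the subring of `𝓜[[T]]` generated by `𝓜`,
`T` and the `(1 - 𝕃 ^ a T ^ b)⁻¹`, `a ∈ ℤ`, `b > 0`, `a / b ≠ s₀`. -/
def IsPole (Z : PowerSeries (MK ℂ)) (s₀ : ℚ) : Prop :=
  Z ∉ ratRing ℂ {p | 0 < p.2 ∧ ((p.1 : ℚ) / p.2) ≠ s₀}

theorem pole_in {Z : PowerSeries (MK ℂ)} {S : Finset (ℤ × ℤ)} (hS : ∀ q ∈ S, 0 < q.2)
    (hZ : Z ∈ ratRing ℂ (S : Set (ℤ × ℤ))) {s₀ : ℚ} (h : IsPole Z s₀) :
    ∃ q ∈ S, s₀ = (q.1 : ℚ) / q.2 := by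
  by_contra hc
  push Not at hc
  apply h
  refine Algebra.adjoin_mono ?_ hZ
  rintro g (hg | ⟨p, hp, rfl⟩)
  · exact Or.inl hg
  · exact Or.inr ⟨p, ⟨hS p hp, Ne.symm (hc p hp)⟩, rfl⟩

theorem ratL_le (D : Set (ℤ × ℤ)) : ratL (Lu ℂ) D ≤ ratRing ℂ D := by
  refine Algebra.adjoin_le ?_
  rintro g (hg | ⟨p, hp, rfl⟩)
  · exact Algebra.subset_adjoin (Or.inl hg)
  · refine Subalgebra.mul_mem _ (Subalgebra.algebraMap_mem _ _) ?_
    exact Algebra.subset_adjoin (Or.inr ⟨p, hp, rfl⟩)

/-- **The strong monodromy conjecture, global (Q1) and local (Q2), for the motivic zeta functions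
of the determinantal forms.**  Let `f = ∏ t, F_t ^ a t` (first part) or `f = ∑_j y_j M_j` (second
part), see above.

* Each pole of the motivic zeta function of `f`, also if only the arcs with origin in an arbitrary
  constructible set `W` are counted, is a root of every polynomial `b` with
  `b(s) f ^ s = P(s) f ^ (s + 1)`, `P(s)` in the Weyl algebra with `s` adjoined (`IsBFunction`), in
  particular of the Bernstein-Sato polynomial `b_f`.
* Each pole of the local motivic zeta function of `f` at the origin is a root of every polynomial `b`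
  with such an equation where `P(s)` has formal power series coefficients (`IsLocalBFunction`), in
  particular of the local Bernstein-Sato polynomial `b_{f,0}`. -/
theorem result (S : MSpace) (T : ℕ) (p : Fin T → ℕ) (hp : ∀ t, S.Small (p t)) :
    (∀ a : Fin T → ℕ, (∀ t, 0 < a t) →
      (∀ W : Set (Pt ℂ ((Σ t, S.Idx (p t)) ⊕ S.Var)), Constr W → ∀ s₀ : ℚ,
        IsPole (zetaM (map (Int.castRingHom ℂ) (detForm S p a)) W {c | c ≠ 0}) s₀ →
        ∀ b : Polynomial ℂ, IsBFunction (map (Int.castRingHom ℂ) (detForm S p a)) b →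
          b.eval (s₀ : ℂ) = 0) ∧
      (∀ s₀ : ℚ,
        IsPole (zetaM (map (Int.castRingHom ℂ) (detForm S p a)) {0} {c | c ≠ 0}) s₀ →
        ∀ b : Polynomial ℂ, IsLocalBFunction (map (Int.castRingHom ℂ) (detForm S p a)) b →
          b.eval (s₀ : ℂ) = 0)) ∧
    (∀ W : Set (Pt ℂ (((t : Fin T) → S.Idx (p t)) ⊕ S.Var)), Constr W → ∀ s₀ : ℚ,
      IsPole (zetaM (map (Int.castRingHom ℂ) (detUniv S p)) W {c | c ≠ 0}) s₀ →
      ∀ b : Polynomial ℂ, IsBFunction (map (Int.castRingHom ℂ) (detUniv S p)) b →
        b.eval (s₀ : ℂ) = 0) ∧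
    (∀ s₀ : ℚ,
      IsPole (zetaM (map (Int.castRingHom ℂ) (detUniv S p)) {0} {c | c ≠ 0}) s₀ →
      ∀ b : Polynomial ℂ, IsLocalBFunction (map (Int.castRingHom ℂ) (detUniv S p)) b →
        b.eval (s₀ : ℂ) = 0) := by
  refine ⟨fun a ha => ⟨fun W hW s₀ hs b hb => ?_, fun s₀ hs b hb => ?_⟩,
    fun W hW s₀ hs b hb => ?_, fun s₀ hs b hb => ?_⟩
  · obtain ⟨q, hq, rfl⟩ := pole_in (fun q hq => (form_roots S T p a hp ha q hq).2.1)
      (zetaM_mem S T p a hp ha hW good_ne) hs
    push_cast
    exact (form_roots S T p a hp ha q hq).2.2.1 b hb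
  · obtain ⟨q, hq, rfl⟩ := pole_in (fun q hq => (form_roots S T p a hp ha q hq).2.1)
      (zetaM_mem S T p a hp ha constr_zero good_ne) hs
    push_cast
    exact (form_roots S T p a hp ha q hq).2.2.2 b hb
  · obtain ⟨q, hq, rfl⟩ := pole_in (fun q hq => (univ_roots S T p hp q hq).2.1)
      (ratL_le _ (zetaM_univ S T p hp hW)) hs
    push_cast
    exact (univ_roots S T p hp q hq).2.2.1 b hb
  · obtain ⟨q, hq, rfl⟩ := pole_in (fun q hq => (univ_roots S T p hp q hq).2.1)
      (ratL_le _ (zetaM_univ S T p hp constr_zero)) hs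
    push_cast
    exact (univ_roots S T p hp q hq).2.2.2 b hb

end Pool.Agent.Results.MP_b07157_ag.DeterminantalForms
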