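import Pool.Agent.W574.MO.Cone

set_option autoImplicit false

/-! # The local strong monodromy conjecture for the hypersurfaces `∑ y_j f_j(x₁, x₂) = 0`

Here the `f_j` are arbitrary polynomials in the two variables `x₁, x₂`, and the `y_j` are further
variables: `F = univ f = ∑ y_j f_j(x₁, x₂)`, a germ at the origin. The local motivic zeta function
of `F` at the origin is `Z_{I,0} L⁻ʳ (1 - L⁻¹) T / (1 - L⁻¹ T)`, `r` the number of the `y_j`, where
`Z_{I,0}` is the local motivic zeta function of the ideal `I = (f_j)` at the origin, computed by
blowing up points of the plane; see `LocalFormMot` (in `Pool.Agent.W574.MO.FormDefs`) and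
`MotLocal` (in `Pool.Agent.W574.MO.Defs`).

The proof is in the starting library `Pool.Agent.W574` (`local_form_mot`):

* `algebraic_of_local`, `locEq_of_univ`: a functional equation of `F` with formal power series
  coefficients at the origin gives a functional equation of the ideal `(f_j)` up to a factor which
  does not vanish at the origin, with the same `b`;
* `point_mot`: the contribution of the origin lies in the ring of the series all of whose
  denominators belong to roots of `b`;
* `b(-1) = 0`.

The starting result `MP_b07157_ag.PlaneForms` treats the global zeta function (Q1) and the global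
Bernstein-Sato polynomial; here both are local (Q2). -/

namespace Pool.Agent.Results.MP_b07157_ag.PlaneFormsLocal

open MvPolynomial Pool.Agent.W574.MO Pool.Agent.W574.HS Pool.Agent.H628R4.TP

/-- **The local strong motivic monodromy conjecture (Q2) for `F = ∑ y_j f_j(x₁, x₂)`.** Let `f_j`
be polynomials in two variables, not all zero, let `b` be a polynomial which satisfies a functional
equation `b(s) F ^ s = P(s) F ^ (s + 1)` with a differential operator `P(s)` with formal power
series coefficients at the origin (in particular the local Bernstein-Sato polynomial `b_{F,0}`), and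
let `Z ∈ M⟦T⟧` be the local motivic zeta function of `F` at the origin. Then `Z` lies in the ring
`M[T][(1 - L⁻ⁿ Tᵃ)⁻¹]`, where the pairs `a, n ≥ 1` are such that `-n/a` is a root of `b`. -/
theorem result {M : Type} [CommRing M] (L : Mˣ) {ι : Type} [Fintype ι]
    (f : ι → MvPolynomial (Fin 2) ℂ) (hf : ∃ j, f j ≠ 0) (b : Polynomial ℂ)
    (hb : IsLocalBFunction (univ f) b) (Z : PowerSeries M) (hZ : LocalFormMot L f Z) :
    Z ∈ DenRing L (RootPair b) := by
  classical
  obtain ⟨Z', hZ', rfl⟩ := hZ
  exact local_form_mot L f hf b hb Z' hZ' _

end Pool.Agent.Results.MP_b07157_ag.PlaneFormsLocal
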